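import Mathlib
import Pool.Agent.Results.MP_17e467_an.FreeZActionNonFDC
import Pool.Agent.Y469.FD.Neg
import Pool.Agent.Y469.FD.Pos

set_option autoImplicit false

/-!
# MP_17e467_an: which groups have a free amenable action without finite dynamical complexity?

Every discrete group with an element of infinite order has one (in particular every such group
with finite decomposition complexity is a counterexample to Q1); locally finite groups have none.
For countable solvable groups this decides the question for every single group.

Topological groupoids, `transGpd Γ X` (the transformation groupoid), `GroupFDC`, `HasFDC` and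
`HasWeakFDC` are those of the starting result; `AmenableLC` (topological amenability over locally
compact unit spaces) and `LocFin` (locally finite groups) are in `Pool/Agent/Y469/FD`.
-/

namespace Pool.Agent.Results.MP_17e467_an.GroupsClassified

open H317F Pool.Agent.Y469.FD
open Pool.Agent.Results.MP_17e467_an.FreeZActionNonFDC

/-- Every free amenable action of the discrete group `Γ` by homeomorphisms on a locally compact
Hausdorff space has finite dynamical complexity (decomposability tested on all relatively compact
open subsets). -/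
def AllFDC (Γ : Type) [Group Γ] [TopologicalSpace Γ] [DiscreteTopology Γ] : Prop :=
  ∀ (X : Type) [TopologicalSpace X] [LocallyCompactSpace X] [T2Space X] [MulAction Γ X]
    [ContinuousConstSMul Γ X], (∀ (γ : Γ) (x : X), γ • x = x → γ = 1) →
    AmenableLC (transGpd Γ X) → HasFDC (transGpd Γ X)

/-- The same for the formally weaker reading of finite dynamical complexity. -/
def AllWeakFDC (Γ : Type) [Group Γ] [TopologicalSpace Γ] [DiscreteTopology Γ] : Prop :=
  ∀ (X : Type) [TopologicalSpace X] [LocallyCompactSpace X] [T2Space X] [MulAction Γ X]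
    [ContinuousConstSMul Γ X], (∀ (γ : Γ) (x : X), γ • x = x → γ = 1) →
    AmenableLC (transGpd Γ X) → HasWeakFDC (transGpd Γ X)

lemma allWeak_of_all {Γ : Type} [Group Γ] [TopologicalSpace Γ] [DiscreteTopology Γ]
    (h : AllFDC Γ) : AllWeakFDC Γ :=
  fun X _ _ _ _ _ h1 h2 => weak_of_fdc (h X h1 h2)

lemma torsion_of_allWeak {Γ : Type} [Group Γ] [TopologicalSpace Γ] [DiscreteTopology Γ]
    (h : AllWeakFDC Γ) (g : Γ) : IsOfFinOrder g := by
  by_contra hg
  obtain ⟨X, _, _, _, _, _, _, _, h1, h2, _, h3⟩ := negative Γ ⟨g, hg⟩
  exact h3 (h X h1 h2)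

lemma all_of_locFin {Γ : Type} [Group Γ] [TopologicalSpace Γ] [DiscreteTopology Γ]
    (h : LocFin Γ) : AllFDC Γ :=
  fun X _ _ _ _ _ _ _ => pos_fdc h X

/-- Free generators have infinite order. -/
lemma of_infinite (α : Type) (a : α) : ¬ IsOfFinOrder (FreeGroup.of a) := by
  intro h
  have h1 := MonoidHom.isOfFinOrder
    (FreeGroup.lift (fun _ : α => (Multiplicative.ofAdd (1 : ℤ)))) h
  rw [FreeGroup.lift_apply_of, isOfFinOrder_ofAdd_iff] at h1
  obtain ⟨n, hn, h2⟩ := isOfFinAddOrder_iff_nsmul_eq_zero.1 h1
  simp at h2
  omega

/-- **Main theorem.**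
1. Every discrete group with an element of infinite order has a free amenable action on a locally
   compact metrizable space (second countable if the group is countable) without finite dynamical
   complexity, in either reading. So every group with finite decomposition complexity and an
   element of infinite order answers Q1 in the negative.
2. Every countable locally finite group has finite decomposition complexity, and every action of a
   locally finite group on a locally compact Hausdorff space has finite dynamical complexity.
3. For every solvable group: all free amenable actions have finite dynamical complexity if and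
   only if the group is a torsion group, if and only if it is locally finite.
4. Every nontrivial free group has a free amenable action without finite dynamical complexity.
5. The group of integers has finite decomposition complexity, and for it the space in 1 can be
   taken compact. -/
theorem result :
    (∀ (Γ : Type) [Group Γ] [TopologicalSpace Γ] [DiscreteTopology Γ],
      (∃ g : Γ, ¬ IsOfFinOrder g) →
      ∃ (X : Type) (_ : TopologicalSpace X) (_ : MulAction Γ X) (_ : ContinuousConstSMul Γ X),
        LocallyCompactSpace X ∧ T2Space X ∧ TopologicalSpace.MetrizableSpace X ∧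
        (Countable Γ → SecondCountableTopology X) ∧
        (∀ (γ : Γ) (x : X), γ • x = x → γ = 1) ∧ AmenableLC (transGpd Γ X) ∧
        ¬ HasFDC (transGpd Γ X) ∧ ¬ HasWeakFDC (transGpd Γ X)) ∧
    ((∀ (Γ : Type) [Group Γ] [Countable Γ], LocFin Γ → GroupFDC Γ) ∧
      ∀ (Γ : Type) [Group Γ] [TopologicalSpace Γ] [DiscreteTopology Γ], LocFin Γ →
        ∀ (X : Type) [TopologicalSpace X] [LocallyCompactSpace X] [T2Space X] [MulAction Γ X]
          [ContinuousConstSMul Γ X], HasFDC (transGpd Γ X) ∧ HasWeakFDC (transGpd Γ X)) ∧
    (∀ (Γ : Type) [Group Γ] [TopologicalSpace Γ] [DiscreteTopology Γ] [Group.IsSolvable Γ],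
      (AllFDC Γ ↔ ∀ g : Γ, IsOfFinOrder g) ∧ (AllWeakFDC Γ ↔ ∀ g : Γ, IsOfFinOrder g) ∧
      ((∀ g : Γ, IsOfFinOrder g) ↔ LocFin Γ)) ∧
    (∀ (α : Type) [Nonempty α] [TopologicalSpace (FreeGroup α)] [DiscreteTopology (FreeGroup α)],
      ¬ AllFDC (FreeGroup α) ∧ ¬ AllWeakFDC (FreeGroup α)) ∧
    GroupFDC (Multiplicative ℤ) ∧
    ∃ (X : Type) (_ : TopologicalSpace X) (_ : MulAction (Multiplicative ℤ) X)
      (_ : ContinuousConstSMul (Multiplicative ℤ) X),
      CompactSpace X ∧ T2Space X ∧ TopologicalSpace.MetrizableSpace X ∧
      (∀ (γ : Multiplicative ℤ) (x : X), γ • x = x → γ = 1) ∧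
      (transGpd (Multiplicative ℤ) X).Amenable ∧
      ¬ HasFDC (transGpd (Multiplicative ℤ) X) ∧
      ¬ HasWeakFDC (transGpd (Multiplicative ℤ) X) := by
  refine ⟨fun Γ _ _ _ h => negative Γ h, ⟨fun Γ _ _ h => locFin_groupFDC h,
    fun Γ _ _ _ h X _ _ _ _ _ => ⟨pos_fdc h X, weak_of_fdc (pos_fdc h X)⟩⟩, ?_, ?_,
    FreeZActionNonFDC.result⟩
  · intro Γ _ _ _ _
    have h1 : (∀ g : Γ, IsOfFinOrder g) → LocFin Γ := fun h => locFin_of_solvable h
    have h2 : (∀ g : Γ, IsOfFinOrder g) → AllFDC Γ := fun h => all_of_locFin (h1 h)
    refine ⟨⟨fun h => torsion_of_allWeak (allWeak_of_all h), h2⟩,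
      ⟨fun h => torsion_of_allWeak h, fun h => allWeak_of_all (h2 h)⟩, h1, fun h g => ?_⟩
    have h3 := h {g} (Set.finite_singleton g)
    have h4 : Finite (Subgroup.zpowers g) := by
      rw [Subgroup.zpowers_eq_closure]
      exact h3.to_subtype
    exact (finite_zpowers).1 h4
  · intro α hα _ _
    obtain ⟨a⟩ := hα
    exact ⟨fun h => of_infinite α a (torsion_of_allWeak (allWeak_of_all h) _),
      fun h => of_infinite α a (torsion_of_allWeak h _)⟩

end Pool.Agent.Results.MP_17e467_an.GroupsClassified
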